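import Pool.Agent.H88.AMX.Common

/-! Module B2 of the Alperin–McKay reduction (MP_657073_al) -/

open scoped Classical

namespace AMx

open H88

theorem b2 (hC1 : T_C1) (hL0 : T_L0) (hL1 : T_L1) (hF0 : T_F0) (hF1 : T_F1) (hF3 : T_F3)
    (hF4 : T_F4) : T_B2 := by
  intro ℓ _ 𝔪 h𝔪 hℓ X T _ _ _ _ F ψ hψ χ hχ
  obtain ⟨hrefl, hsymm, htrans, hadd, hmul, hsum, hprime, hnat⟩ := hL0 𝔪 h𝔪
  have hψC := hC1 T ψ hψ
  have hindX : F.ind ψ ∈ Irr X := ((hF3 ℓ X T F).1 ψ hψ).1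
  constructor
  · intro h
    -- `|V|` is not congruent to zero
    have hV : ¬ Cong 𝔪 (Nat.card F.V : ℂ) 0 := by
      rw [hnat ℓ hℓ]; exact F.cop
    have hcfind : CF (F.ind ψ) := (hF1 ℓ X T F).1 ψ
    -- the general congruence
    have key : ∀ α : T → ℂ, CF α → (∀ t, IsIntegral ℤ (α t)) →
        Cong 𝔪 (Nat.card F.V * ((∑ t, α t * ψ t) / ψ 1))
          ((∑ x, F.ind (fun t => α t⁻¹) x⁻¹ * χ x) / χ 1) := by
      intro α hα hαi
      obtain ⟨hA1, hA2, hA3, -⟩ := hF4 ℓ X T F α hα hαi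
      have := hL1 𝔪 X X (MonoidHom.id X) (F.ind ψ) χ hcfind h
        (fun x => F.ind (fun t => α t⁻¹) x⁻¹) hA1 hA2
      rw [hA3 ψ hψ] at this
      exact this
    have hne : ∑ x, F.lam x⁻¹ * χ x ≠ 0 := by
      intro h0
      have h1cf : CF (fun t : T => if t = 1 then (1 : ℂ) else 0) := by
        intro g x
        have : g * x * g⁻¹ = 1 ↔ x = 1 := by
          constructor
          · intro h
            have : x = g⁻¹ * (g * x * g⁻¹) * g := by group
            rw [this, h]; group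
          · rintro rfl; group
        simp only [this]
      have h1i : ∀ t : T, IsIntegral ℤ (if t = 1 then (1 : ℂ) else 0) := by
        intro t; split_ifs
        · exact isIntegral_one
        · exact isIntegral_zero
      have h1 := key (fun t => if t = 1 then 1 else 0) h1cf h1i
      obtain ⟨-, -, -, hA4⟩ := hF4 ℓ X T F _ h1cf h1i
      rw [hA4 χ hχ h0, zero_div] at h1
      apply hV
      obtain ⟨d, hd, hd1⟩ := hψC.2.1
      have hψ1 : ψ 1 ≠ 0 := by rw [hd1]; exact_mod_cast hd.ne'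
      have h2 : (∑ t : T, (if t = 1 then (1 : ℂ) else 0) * ψ t) / ψ 1 = 1 := by
        rw [Finset.sum_eq_single (1 : T)]
        · rw [if_pos rfl, one_mul, div_self hψ1]
        · intro b _ hb; rw [if_neg hb, zero_mul]
        · intro h; exact absurd (Finset.mem_univ _) h
      rwa [h2, mul_one] at h1
    obtain ⟨ψ', hψ', rfl⟩ := (hF3 ℓ X T F).2.2 χ hχ hne
    refine ⟨ψ', hψ', fun s => ?_, rfl⟩
    have hα := ind1_cf (MonoidHom.id T) s
    have hαi := ind1_integral (MonoidHom.id T) s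
    have h1 := key _ hα hαi
    obtain ⟨-, -, hA3, -⟩ := hF4 ℓ X T F _ hα hαi
    rw [hA3 ψ' hψ', ← cen_eq, ← cen_eq, ← cong_sub, ← mul_sub] at h1
    have hi1 := hψC.2.2.2 s
    have hi2 := (hC1 T ψ' hψ').2.2.2 s
    rcases hprime _ _ (isIntegral_nat _) (hi1.sub hi2) h1 with h2 | h2
    · exact absurd h2 hV
    · exact cong_sub.1 h2
  · rintro ⟨ψ', hψ', hsame, rfl⟩ x
    rw [cen_ind F hF0 hF1 ψ x, cen_ind F hF0 hF1 ψ' x]
    exact hL1 𝔪 T T (MonoidHom.id T) ψ ψ' hψC.1.cf hsame (cc F x) (cc_cf F hF1 x)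
      (cc_integral F hF0 x)

end AMx
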