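import Pool.Agent.H88.AMX.Common

/-! Module B3 of the Alperin–McKay reduction (MP_657073_al) -/

open scoped Classical

set_option linter.unusedSectionVars false

namespace AMx

namespace H88

section St

variable {ℓ : ℕ} {X T : Type} [Group X] [Group T] [Fintype X] [Fintype T] (F : Fr ℓ X T)

/-- the stabiliser of `lam` -/
def St : Subgroup X where
  carrier := {x | ∀ v ∈ F.V, F.lam (x * v * x⁻¹) = F.lam v}
  mul_mem' := by
    intro x y hx hy v hv
    have h1 : x * y * v * (x * y)⁻¹ = x * (y * v * y⁻¹) * x⁻¹ := by group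
    rw [h1, hx _ (F.norm.conj_mem _ hv _), hy v hv]
  one_mem' := by intro v _; simp
  inv_mem' := by
    intro x hx v hv
    have h1 : x⁻¹ * v * x⁻¹⁻¹ ∈ F.V := F.norm.conj_mem _ hv _
    rw [← hx _ h1]
    congr 1; group

theorem mem_St {x : X} : x ∈ St F ↔ ∃ v ∈ F.V, ∃ t, x = v * F.io t := F.stab x

theorem uniq {v v' : X} {t t' : T} (hv : v ∈ F.V) (hv' : v' ∈ F.V)
    (h : v * F.io t = v' * F.io t') : v = v' ∧ t = t' := by
  have h1 : F.io (t * t'⁻¹) = v⁻¹ * v' := by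
    rw [map_mul, map_inv, ← mul_right_inj v, mul_inv_cancel_left, ← mul_assoc, h]
    group
  have h2 : F.io (t * t'⁻¹) ∈ F.V := by
    rw [h1]; exact F.V.mul_mem (F.V.inv_mem hv) hv'
  have h3 := F.disj _ h2
  have h4 : t = t' := by rwa [mul_inv_eq_one] at h3
  subst h4
  exact ⟨mul_right_cancel h, rfl⟩

theorem card_St : Nat.card (St F) = Nat.card F.V * Nat.card T := by
  rw [← Nat.card_prod]
  symm
  refine Nat.card_congr (Equiv.ofBijective
    (fun p : F.V × T => (⟨(p.1 : X) * F.io p.2, (mem_St F).2 ⟨p.1, p.1.2, p.2, rfl⟩⟩ : St F))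
    ⟨?_, ?_⟩)
  · rintro ⟨v, t⟩ ⟨v', t'⟩ h
    have h1 := congrArg Subtype.val h
    obtain ⟨h2, h3⟩ := uniq F v.2 v'.2 h1
    exact Prod.ext (Subtype.ext h2) h3
  · rintro ⟨x, hx⟩
    obtain ⟨v, hv, t, rfl⟩ := (mem_St F).1 hx
    exact ⟨(⟨v, hv⟩, t), rfl⟩

/-- the projection `v · io t ↦ t` -/
noncomputable def pT : St F →* T where
  toFun s := ((mem_St F).1 s.2).choose_spec.2.choose
  map_one' := by
    have h := ((mem_St F).1 (1 : St F).2).choose_spec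
    refine (uniq F h.1 F.V.one_mem (t' := 1) ?_).2
    rw [← h.2.choose_spec]; simp
  map_mul' s s' := by
    have h := ((mem_St F).1 (s * s' : St F).2).choose_spec
    have h1 := ((mem_St F).1 s.2).choose_spec
    have h2 := ((mem_St F).1 s'.2).choose_spec
    set v := ((mem_St F).1 s.2).choose with hv
    set v' := ((mem_St F).1 s'.2).choose with hv'
    refine (uniq F h.1 (F.V.mul_mem h1.1 (F.norm.conj_mem _ h2.1 (F.io h1.2.choose))) ?_).2
    rw [← h.2.choose_spec, map_mul]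
    calc ((s * s' : St F) : X) = (s : X) * (s' : X) := rfl
      _ = (v * F.io h1.2.choose) * (v' * F.io h2.2.choose) := by
          rw [← h1.2.choose_spec, ← h2.2.choose_spec]
      _ = _ := by group

theorem pT_eq (s : St F) {v : X} {t : T} (hv : v ∈ F.V) (h : (s : X) = v * F.io t) :
    pT F s = t := by
  have h1 := ((mem_St F).1 s.2).choose_spec
  refine (uniq F h1.1 hv ?_).2
  rw [← h]
  exact h1.2.choose_spec.symm

theorem pT_ker {s : St F} (h : pT F s = 1) : (s : X) ∈ F.V := by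
  obtain ⟨v, hv, t, hs⟩ := (mem_St F).1 s.2
  rw [pT_eq F s hv hs] at h
  rw [hs, h, map_one, mul_one]; exact hv

/-- sum over the group in terms of the left cosets of a subgroup -/
theorem sum_quot {G : Type} [Group G] [Fintype G] (S : Subgroup G) (g : G ⧸ S → ℂ) :
    ∑ y : G, g (QuotientGroup.mk y) = (Nat.card S : ℂ) * ∑ q : G ⧸ S, g q := by
  rw [Fintype.sum_equiv (Subgroup.groupEquivQuotientProdSubgroup (s := S))
    (fun y => g (QuotientGroup.mk y)) (fun p => g p.1) ?_]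
  · rw [Fintype.sum_prod_type]
    simp only [Finset.sum_const, Finset.card_univ, nsmul_eq_mul]
    rw [← Finset.mul_sum, Nat.card_eq_fintype_card]
  · intro y
    congr 1


theorem cen_conj {G : Type} [Group G] [Fintype G] (ψ : G → ℂ) (x g : G) :
    cen (MonoidHom.id G) ψ (g * x * g⁻¹) = cen (MonoidHom.id G) ψ x := by
  rw [cen_eq, cen_eq]
  congr 1
  refine Finset.sum_congr rfl fun y _ => ?_
  have : IsConj (g * x * g⁻¹) (MonoidHom.id G y) ↔ IsConj x (MonoidHom.id G y) := by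
    have h : IsConj x (g * x * g⁻¹) := isConj_iff.2 ⟨g, rfl⟩
    exact ⟨fun h1 => h.trans h1, fun h1 => h.symm.trans h1⟩
  unfold ind1
  by_cases h : IsConj x (MonoidHom.id G y)
  · rw [if_pos h, if_pos (this.2 h)]
  · rw [if_neg h, if_neg (fun h' => h (this.1 h'))]

/-- the third property of a defect group -/
theorem b3_iii (hL2 : T_L2) (hF0 : T_F0) (hF1 : T_F1) (hB1 : T_B1) [Fact ℓ.Prime]
    {𝔪 : Ideal (integralClosure ℤ ℂ)} (h𝔪 : 𝔪.IsMaximal)
    (hℓ : (ℓ : integralClosure ℤ ℂ) ∈ 𝔪) {ψ : T → ℂ} (hcf : CF ψ)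
    (hcen : ∀ t, IsIntegral ℤ (cen (MonoidHom.id T) ψ t)) {D : Subgroup T} (hD : IsPGroup ℓ D)
    (hdef3 : ∀ t : T, ¬ Cong 𝔪 (cen (MonoidHom.id T) ψ t) 0 →
      ∃ g : T, ∀ d ∈ D, g * d * g⁻¹ ∈ Subgroup.centralizer {t})
    (x : X) (hx : ¬ Cong 𝔪 (cen (MonoidHom.id X) (F.ind ψ) x) 0) :
    ∃ g : X, ∀ d ∈ D.map F.io, g * d * g⁻¹ ∈ Subgroup.centralizer {x} := by
  rw [cen_ind F hF0 hF1 ψ x] at hx
  obtain ⟨t, ht1, ht2⟩ := hL2 𝔪 T ψ hcf hcen (cc F x) (cc_cf F hF1 x) (cc_integral F hF0 x) hx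
  obtain ⟨g, hg⟩ := hdef3 t ht2
  have hQt : D.map (MulAut.conj g).toMonoidHom ≤ Subgroup.centralizer {t} := by
    rintro _ ⟨d, hd, rfl⟩
    exact hg d hd
  have hB := hB1 ℓ 𝔪 h𝔪 hℓ X T F (D.map (MulAut.conj g).toMonoidHom) (hD.map _) x t hQt
  have hne : (∑ v : X, if (∀ q ∈ D.map (MulAut.conj g).toMonoidHom,
      F.io q * v * (F.io q)⁻¹ = v) ∧ IsConj x (v * F.io t) then F.lam v else 0) ≠ 0 := by
    intro h0
    rw [h0] at hB
    exact ht1 hB
  obtain ⟨v, -, hv⟩ := Finset.exists_ne_zero_of_sum_ne_zero hne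
  have hcond : (∀ q ∈ D.map (MulAut.conj g).toMonoidHom,
      F.io q * v * (F.io q)⁻¹ = v) ∧ IsConj x (v * F.io t) := by
    by_contra hcon
    exact hv (if_neg hcon)
  obtain ⟨hfix, hconj⟩ := hcond
  obtain ⟨h, hh⟩ := isConj_iff.1 hconj
  refine ⟨h⁻¹ * F.io g, ?_⟩
  rintro _ ⟨d, hd, rfl⟩
  have h1 := hfix (g * d * g⁻¹) ⟨d, hd, rfl⟩
  have h2 := hg d hd
  rw [Subgroup.mem_centralizer_singleton_iff] at h2 ⊢
  set p := F.io (g * d * g⁻¹) with hp
  have h3 : p * F.io t = F.io t * p := by rw [hp, ← map_mul, ← map_mul, h2]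
  have h1' : p * v = v * p := by
    calc p * v = (p * v * p⁻¹) * p := by group
      _ = v * p := by rw [h1]
  have h4 : p * (v * F.io t) = (v * F.io t) * p := by
    rw [← mul_assoc, h1', mul_assoc, h3, mul_assoc]
  have h5 : h⁻¹ * F.io g * F.io d * (h⁻¹ * F.io g)⁻¹ = h⁻¹ * p * h := by
    rw [hp, map_mul, map_mul, map_inv]; group
  rw [h5]
  have h6 : x = h⁻¹ * (v * F.io t) * h := by rw [← hh]; group
  rw [h6]
  calc h⁻¹ * p * h * (h⁻¹ * (v * F.io t) * h) = h⁻¹ * (p * (v * F.io t)) * h := by group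
    _ = h⁻¹ * ((v * F.io t) * p) * h := by rw [h4]
    _ = _ := by group

/-- an `ℓ`-element of `V` is trivial -/
theorem eq_one_of_V [Fact ℓ.Prime] {v : X} (hv : v ∈ F.V) {k : ℕ} (hk : v ^ ℓ ^ k = 1) :
    v = 1 := by
  have h1 : v ^ Nat.card F.V = 1 := by
    have := pow_card_eq_one' (x := (⟨v, hv⟩ : F.V))
    exact congrArg Subtype.val this
  have hcop : Nat.Coprime (ℓ ^ k) (Nat.card F.V) :=
    Nat.Coprime.pow_left _ ((Nat.Prime.coprime_iff_not_dvd Fact.out).2 F.cop)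
  have h2 : orderOf v ∣ Nat.gcd (ℓ ^ k) (Nat.card F.V) :=
    Nat.dvd_gcd (orderOf_dvd_of_pow_eq_one hk) (orderOf_dvd_of_pow_eq_one h1)
  rw [hcop.gcd_eq_one, Nat.dvd_one, orderOf_eq_one_iff] at h2
  exact h2

/-- the `ℓ`-part bound: an `ℓ`-subgroup `R` of `C` has at most `|D|` elements if `ℓ` does not
divide `[C : D]` -/
theorem card_le_of_sylow [Fact ℓ.Prime] {D C R : Subgroup T} (hDC : D ≤ C) (hRC : R ≤ C)
    (hR : IsPGroup ℓ R) (hind : ¬ ℓ ∣ D.relIndex C) : Nat.card R ≤ Nat.card D := by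
  obtain ⟨k, hk⟩ := IsPGroup.iff_card.1 hR
  have h1 : Nat.card R ∣ Nat.card D * D.relIndex C := by
    have h3 := Subgroup.relIndex_mul_relIndex ⊥ D C bot_le hDC
    rw [Subgroup.relIndex_bot_left, Subgroup.relIndex_bot_left] at h3
    rw [h3]
    exact Subgroup.card_dvd_of_le hRC
  have h2 : Nat.Coprime (Nat.card R) (D.relIndex C) := by
    rw [hk]
    exact Nat.Coprime.pow_left _ ((Nat.Prime.coprime_iff_not_dvd Fact.out).2 hind)
  exact Nat.le_of_dvd Nat.card_pos (h2.dvd_of_dvd_mul_right h1)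

end St

end H88

open H88

set_option maxHeartbeats 1000000 in
theorem b3 (hC1 : T_C1) (hL0 : T_L0) (hL2 : T_L2) (hL3 : T_L3) (hF0 : T_F0) (hF1 : T_F1)
    (hF3 : T_F3) (hF4 : T_F4) (hB1 : T_B1) : T_B3 := by
  intro ℓ _ 𝔪 h𝔪 hℓ X T _ _ _ _ F ψ hψ D hdef
  obtain ⟨hrefl, hsymm, htrans, hadd, hmul, hsum, hprime, hnat⟩ := hL0 𝔪 h𝔪
  obtain ⟨hDp, ⟨t, ht, hDt, hind⟩, hdef3⟩ := hdef
  have hψC := hC1 T ψ hψ
  have hindX : F.ind ψ ∈ Irr X := ((hF3 ℓ X T F).1 ψ hψ).1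
  have hχC := hC1 X _ hindX
  have hiii := b3_iii F hL2 hF0 hF1 hB1 h𝔪 hℓ hψC.1.cf hψC.2.2.2 hDp hdef3
  refine ⟨hDp.map _, ?_, hiii⟩
  have hV : ¬ Cong 𝔪 (Nat.card F.V : ℂ) 0 := by
    rw [hnat ℓ hℓ]; exact F.cop
  obtain ⟨hA1, hA2, hA3, -⟩ := hF4 ℓ X T F (ind1 (MonoidHom.id T) t) (ind1_cf _ _)
    (ind1_integral _ _)
  set α := ind1 (MonoidHom.id T) t with hαdef
  set β : T → ℂ := fun t => α t⁻¹ with hβ
  have hβcf : CF β := by
    intro g s
    have : (g * s * g⁻¹)⁻¹ = g * s⁻¹ * g⁻¹ := by group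
    simp only [hβ, this]
    exact ind1_cf (MonoidHom.id T) t g s⁻¹
  have h1 : ¬ Cong 𝔪 ((∑ x, F.ind β x⁻¹ * F.ind ψ x) / F.ind ψ 1) 0 := by
    rw [hA3 ψ hψ, hαdef, ← cen_eq]
    intro h
    rcases hprime _ _ (isIntegral_nat _) (hψC.2.2.2 t) h with h | h
    · exact hV h
    · exact ht h
  obtain ⟨x₀, hx1, hx2⟩ := hL2 𝔪 X (F.ind ψ) hχC.1.cf hχC.2.2.2 _ hA1 hA2 h1
  obtain ⟨h, hh⟩ := hiii x₀ hx2
  obtain ⟨x, hx⟩ : ∃ x, x = h⁻¹ * x₀ * h⁻¹⁻¹ := ⟨_, rfl⟩
  have hx1' : ¬ Cong 𝔪 (F.ind β x⁻¹) 0 := by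
    have h3 := hA1 h⁻¹ x₀
    rw [← hx] at h3
    have h4 : F.ind β x⁻¹ = F.ind β x₀⁻¹ := h3
    rw [h4]; exact hx1
  have hx2' : ¬ Cong 𝔪 (cen (MonoidHom.id X) (F.ind ψ) x) 0 := by
    rw [hx, cen_conj]; exact hx2
  have hDx : D.map F.io ≤ Subgroup.centralizer {x} := by
    intro d hd
    have h3 := hh d hd
    rw [Subgroup.mem_centralizer_singleton_iff] at h3 ⊢
    rw [hx]
    calc d * (h⁻¹ * x₀ * h⁻¹⁻¹) = h⁻¹ * ((h * d * h⁻¹) * x₀) * h := by group
      _ = h⁻¹ * (x₀ * (h * d * h⁻¹)) * h := by rw [h3]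
      _ = _ := by group
  -- a Sylow subgroup of the centraliser
  have hDp' : IsPGroup ℓ ((D.map F.io).subgroupOf (Subgroup.centralizer {x})) :=
    (hDp.map F.io).comap_of_injective _ Subtype.val_injective
  obtain ⟨P', hP'⟩ := hDp'.exists_le_sylow
  obtain ⟨P, hP⟩ : ∃ P : Subgroup X,
      P = (P' : Subgroup (Subgroup.centralizer {x})).map (Subgroup.centralizer {x}).subtype :=
    ⟨_, rfl⟩
  have hPp : IsPGroup ℓ P := by rw [hP]; exact P'.isPGroup'.map _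
  have hDP : D.map F.io ≤ P := by
    intro d hd
    rw [hP]
    exact ⟨⟨d, hDx hd⟩, hP' (Subgroup.mem_subgroupOf.2 hd), rfl⟩
  have hPx : ∀ u ∈ P, u * x = x * u := by
    intro u hu
    rw [hP] at hu
    obtain ⟨u', -, rfl⟩ := hu
    exact Subgroup.mem_centralizer_singleton_iff.1 u'.2
  -- the function on the cosets
  have hF0' := hF0 ℓ X T F
  obtain ⟨-, hixpos, -, hth1, hth2, -, hth3⟩ := hF0'
  have hwd : ∀ a b : X, a⁻¹ * b ∈ St F →
      F.th β (a⁻¹ * x⁻¹ * a) = F.th β (b⁻¹ * x⁻¹ * b) := by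
    intro a b hab
    have h2 : a⁻¹ * x⁻¹ * a = (a⁻¹ * b) * (b⁻¹ * x⁻¹ * b) * (a⁻¹ * b)⁻¹ := by group
    rw [h2]
    exact hth3 β hβcf _ _ ((mem_St F).1 hab)
  let f : X ⧸ St F → ℂ := Quotient.lift (fun y : X => F.th β (y⁻¹ * x⁻¹ * y)) (by
    intro a b hab
    rw [← Quotient.eq_iff_equiv] at hab
    exact hwd a b (QuotientGroup.eq.1 hab))
  have hf : ∀ y : X, f (QuotientGroup.mk y) = F.th β (y⁻¹ * x⁻¹ * y) := fun y => rfl
  have hthint : ∀ z, IsIntegral ℤ (F.th β z) := by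
    intro z
    unfold Fr.th
    exact IsIntegral.sum _ fun s _ => (lam_integral F hF0 _).mul (ind1_integral _ _ _)
  have hA : F.ind β x⁻¹ = ∑ q, f q := by
    have hcard : (Nat.card F.V * Nat.card T : ℂ) ≠ 0 := by
      have h3 : Nat.card F.V * Nat.card T ≠ 0 := by
        rw [← card_St]; exact Nat.card_pos.ne'
      exact_mod_cast h3
    have h3 : ∑ y : X, F.th β (y * x⁻¹ * y⁻¹) = ∑ y : X, f (QuotientGroup.mk y) := by
      refine Fintype.sum_equiv (Equiv.inv X) _ _ (fun y => ?_)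
      rw [hf]
      simp
    unfold Fr.ind
    rw [h3, sum_quot (St F) f, card_St, div_eq_iff hcard]
    push_cast
    ring
  -- the action of `P`
  have hfinv : ∀ (u : P) (q : X ⧸ St F), f (u • q) = f q := by
    intro u q
    induction q using QuotientGroup.induction_on with | H y => ?_
    have h3 : u • (QuotientGroup.mk y : X ⧸ St F) = QuotientGroup.mk ((u : X) * y) := rfl
    rw [h3, hf, hf]
    have h4 := hPx u u.2
    have h5 : (u : X)⁻¹ * x⁻¹ * (u : X) = x⁻¹ := by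
      calc (u : X)⁻¹ * x⁻¹ * (u : X) = ((u : X)⁻¹ * x * (u : X))⁻¹ := by group
        _ = ((u : X)⁻¹ * (x * (u : X)))⁻¹ := by rw [mul_assoc]
        _ = ((u : X)⁻¹ * ((u : X) * x))⁻¹ := by rw [h4]
        _ = x⁻¹ := by group
    have h6 : ((u : X) * y)⁻¹ * x⁻¹ * ((u : X) * y) = y⁻¹ * ((u : X)⁻¹ * x⁻¹ * (u : X)) * y := by
      group
    rw [h6, h5]
  have hL := hL3 𝔪 ℓ hℓ P (X ⧸ St F) hPp f (by
    intro q
    induction q using QuotientGroup.induction_on with | H y => ?_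
    rw [hf]; exact hthint _) hfinv
  have hex : ∃ q : X ⧸ St F, (∀ u : P, u • q = q) ∧ f q ≠ 0 := by
    by_contra hcon
    apply hx1'
    rw [hA]
    refine (congrArg (Cong 𝔪 _) (Finset.sum_eq_zero (fun ω _ => ?_))).mp hL
    split_ifs with hω
    · by_contra hf0
      exact hcon ⟨ω, hω, hf0⟩
    · rfl
  obtain ⟨q, hfix, hq⟩ := hex
  induction q using QuotientGroup.induction_on with | H y => ?_
  rw [hf] at hq
  have hyP : ∀ u : P, y⁻¹ * (u : X) * y ∈ St F := by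
    intro u
    have h3 : (QuotientGroup.mk ((u : X) * y) : X ⧸ St F) = QuotientGroup.mk y := hfix u
    have h4 := QuotientGroup.eq.1 h3.symm
    rwa [← mul_assoc] at h4
  have hform : ∃ v ∈ F.V, ∃ s, y⁻¹ * x⁻¹ * y = v * F.io s := by
    by_contra hcon
    exact hq (hth2 β _ hcon)
  obtain ⟨w, hw, s, hws⟩ := hform
  have hs : IsConj t s⁻¹ := by
    rw [hws, hth1 β w hw s] at hq
    by_contra hcon
    apply hq
    have : β s = 0 := by
      simp only [hβ, hαdef, ind1]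
      exact if_neg hcon
    rw [this, mul_zero]
  have hyxSt : y⁻¹ * x⁻¹ * y ∈ St F := (mem_St F).2 ⟨w, hw, s, hws⟩
  -- the homomorphism `P → T`
  let κ : P →* St F :=
    { toFun := fun u => ⟨y⁻¹ * (u : X) * y, hyP u⟩
      map_one' := by apply Subtype.ext; simp
      map_mul' := fun u v => by
        apply Subtype.ext
        show y⁻¹ * ((u : X) * (v : X)) * y = (y⁻¹ * (u : X) * y) * (y⁻¹ * (v : X) * y)
        group }
  let φ : P →* T := (pT F).comp κ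
  have hφinj : Function.Injective φ := by
    rw [injective_iff_map_eq_one]
    intro u hu
    have h3 : y⁻¹ * (u : X) * y ∈ F.V := pT_ker F (s := κ u) hu
    obtain ⟨k, hk⟩ := hPp u
    have hk' : (u : X) ^ ℓ ^ k = 1 := by
      have := congrArg (Subtype.val) hk
      simpa using this
    have h4 : (y⁻¹ * (u : X) * y) ^ ℓ ^ k = 1 := by
      have h5 : y⁻¹ * (u : X) * y = y⁻¹ * (u : X) * y⁻¹⁻¹ := by rw [inv_inv]
      rw [h5, conj_pow, hk']; group
    have h5 := eq_one_of_V F h3 h4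
    apply Subtype.ext
    show (u : X) = 1
    have h6 : (u : X) = y * (y⁻¹ * (u : X) * y) * y⁻¹ := by group
    rw [h6, h5]; group
  have hφcent : ∀ u : P, φ u * s = s * φ u := by
    intro u
    have h3 : pT F ⟨y⁻¹ * x⁻¹ * y, hyxSt⟩ = s := pT_eq F _ hw hws
    have h4 : κ u * ⟨y⁻¹ * x⁻¹ * y, hyxSt⟩ = ⟨y⁻¹ * x⁻¹ * y, hyxSt⟩ * κ u := by
      apply Subtype.ext
      show (y⁻¹ * (u : X) * y) * (y⁻¹ * x⁻¹ * y) = (y⁻¹ * x⁻¹ * y) * (y⁻¹ * (u : X) * y)
      have h5 := hPx u u.2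
      have h6 : (u : X) * x⁻¹ = x⁻¹ * (u : X) := by
        calc (u : X) * x⁻¹ = x⁻¹ * (x * (u : X)) * x⁻¹ := by group
          _ = x⁻¹ * ((u : X) * x) * x⁻¹ := by rw [h5]
          _ = x⁻¹ * (u : X) := by group
      calc (y⁻¹ * (u : X) * y) * (y⁻¹ * x⁻¹ * y) = y⁻¹ * ((u : X) * x⁻¹) * y := by group
        _ = y⁻¹ * (x⁻¹ * (u : X)) * y := by rw [h6]
        _ = _ := by group
    have h5 := congrArg (pT F) h4
    rw [map_mul, map_mul, h3] at h5
    exact h5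
  obtain ⟨c, hc⟩ := isConj_iff.1 hs
  -- the image, conjugated into the centraliser of `t`
  have hR : IsPGroup ℓ (φ.range.map (MulAut.conj c⁻¹).toMonoidHom) :=
    (hPp.of_surjective φ.rangeRestrict φ.rangeRestrict_surjective).map _
  have hRC : φ.range.map (MulAut.conj c⁻¹).toMonoidHom ≤ Subgroup.centralizer {t} := by
    rintro _ ⟨_, ⟨u, rfl⟩, rfl⟩
    rw [Subgroup.mem_centralizer_singleton_iff]
    have h3 : φ u * s⁻¹ = s⁻¹ * φ u := by
      calc φ u * s⁻¹ = s⁻¹ * (s * φ u) * s⁻¹ := by group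
        _ = s⁻¹ * (φ u * s) * s⁻¹ := by rw [hφcent]
        _ = s⁻¹ * φ u := by group
    have h4 : t = c⁻¹ * s⁻¹ * c := by rw [← hc]; group
    have h5 : (MulAut.conj c⁻¹).toMonoidHom (φ u) = c⁻¹ * φ u * c := by
      simp
    rw [h5, h4]
    calc c⁻¹ * φ u * c * (c⁻¹ * s⁻¹ * c) = c⁻¹ * (φ u * s⁻¹) * c := by group
      _ = c⁻¹ * (s⁻¹ * φ u) * c := by rw [h3]
      _ = _ := by group
  have hcardR : Nat.card (φ.range.map (MulAut.conj c⁻¹).toMonoidHom) = Nat.card P := by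
    rw [Subgroup.card_map_of_injective (MulAut.conj c⁻¹).injective]
    exact (Nat.card_congr (MonoidHom.ofInjective hφinj).toEquiv).symm
  have hcard := card_le_of_sylow (ℓ := ℓ) hDt hRC hR hind
  rw [hcardR] at hcard
  have hcardD : Nat.card (D.map F.io) = Nat.card D := Subgroup.card_map_of_injective F.inj
  have hPD : D.map F.io = P := Subgroup.eq_of_le_of_card_ge hDP (by rw [hcardD]; exact hcard)
  refine ⟨x, hx2', hDx, ?_⟩
  have hsub : (D.map F.io).subgroupOf (Subgroup.centralizer {x}) = (P' : Subgroup _) := by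
    rw [hPD, hP, Subgroup.subgroupOf, Subgroup.comap_map_eq_self_of_injective
      Subtype.val_injective]
  rw [Subgroup.relIndex, hsub]
  exact P'.not_dvd_index

end AMx
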