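import Pool.Agent.H88.AMX.Common

/-! Module B6 of the Alperin–McKay reduction (MP_657073_al) -/

open scoped Classical

namespace AMx

open H88

namespace H88

variable {ℓ : ℕ} {X T : Type} [Group X] [Group T] [Fintype X] [Fintype T] (F : Fr ℓ X T)

set_option linter.unusedSectionVars false

/-- `v ∈ V` normalises `io D` iff it centralises `io D` -/
theorem fix_iff (D : Subgroup T) {v : X} (hv : v ∈ F.V) :
    (∀ q ∈ D, F.io q * v * (F.io q)⁻¹ = v) ↔
      v ∈ Subgroup.normalizer ((D.map F.io : Subgroup X) : Set X) := by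
  constructor
  · intro h
    have h1 : ∀ q ∈ D, v * F.io q * v⁻¹ = F.io q := by
      intro q hq
      have := h q hq
      calc v * F.io q * v⁻¹ = (F.io q * v * (F.io q)⁻¹) * F.io q * v⁻¹ := by rw [this]
        _ = F.io q := by group
    have h2 : ∀ q ∈ D, v⁻¹ * F.io q * v = F.io q := by
      intro q hq
      have := h1 q hq
      calc v⁻¹ * F.io q * v = v⁻¹ * (v * F.io q * v⁻¹) * v := by rw [this]
        _ = F.io q := by group
    rw [Subgroup.mem_normalizer_iff]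
    intro x
    constructor
    · rintro ⟨q, hq, rfl⟩
      exact ⟨q, hq, (h1 q hq).symm⟩
    · rintro ⟨q, hq, hx⟩
      refine ⟨q, hq, ?_⟩
      rw [← h2 q hq, hx]; group
  · intro h q hq
    rw [Subgroup.mem_normalizer_iff] at h
    obtain ⟨q', hq', hx⟩ := (h (F.io q)).1 ⟨q, hq, rfl⟩
    have h3 : F.io (q' * q⁻¹) ∈ F.V := by
      have h4 : F.io (q' * q⁻¹) = v * (F.io q * v⁻¹ * (F.io q)⁻¹) := by
        rw [map_mul, map_inv, hx]; group
      rw [h4]
      exact F.V.mul_mem hv (F.norm.conj_mem _ (F.V.inv_mem hv) _)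
    have h5 := F.disj _ h3
    have h6 : q' = q := by rwa [mul_inv_eq_one] at h5
    rw [h6] at hx
    -- io q = v * io q * v⁻¹
    have h7 : F.io q * v = v * F.io q := by
      calc F.io q * v = (v * F.io q * v⁻¹) * v := by rw [← hx]
        _ = v * F.io q := by group
    rw [h7]; group



theorem b6_aux (hL0 : T_L0) (hL1 : T_L1) (hL2 : T_L2) (hC1 : T_C1) (hF0 : T_F0) (hF1 : T_F1)
    (hB1 : T_B1) [Fact ℓ.Prime] {𝔪 : Ideal (integralClosure ℤ ℂ)} (h𝔪 : 𝔪.IsMaximal)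
    (hℓ : (ℓ : integralClosure ℤ ℂ) ∈ 𝔪) (D N : Subgroup T) (NX : Subgroup X)
    [Fintype N] [Fintype NX]
    (hN : N = Subgroup.normalizer (D : Set T))
    (hNX : NX = Subgroup.normalizer ((D.map F.io : Subgroup X) : Set X))
    (F' : Fr ℓ NX N) (hlam : ∀ x, F'.lam x = F.lam (x : X))
    (hio : ∀ t, (F'.io t : X) = F.io (t : T)) (hD : IsPGroup ℓ D)
    (χ : T → ℂ) (ψ : N → ℂ) (hχ : χ ∈ Irr T) (hψ : ψ ∈ Irr N)
    (hdef : IsDefect ℓ 𝔪 ψ (D.subgroupOf N)) (hcorr : Corr 𝔪 N.subtype χ ψ) :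
    Corr 𝔪 NX.subtype (F.ind χ) (F'.ind ψ) := by
  intro x
  obtain ⟨hrefl, hsymm, htrans, hadd, hmul, hsum, hprime, hnat⟩ := hL0 𝔪 h𝔪
  have hψC := hC1 N ψ hψ
  -- left hand side
  rw [cen_ind F hF0 hF1 χ x]
  have h1 := hL1 𝔪 N T N.subtype χ ψ (hC1 T χ hχ).1.cf hcorr (cc F x) (cc_cf F hF1 x)
    (cc_integral F hF0 x)
  -- right hand side
  have h2 : cen NX.subtype (F'.ind ψ) x =
      (∑ s, F'.ph (ind1 NX.subtype x) s * ψ s) / ψ 1 := by
    rw [cen_eq, sum_ind F' hF0 hF1 ψ _ (ind1_cf _ _)]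
  rw [h2]
  refine htrans _ _ _ h1 ?_
  rw [← cong_sub, ← sub_div, ← Finset.sum_sub_distrib]
  have h3 : ∀ s : N, cc F x (N.subtype s) * ψ s - F'.ph (ind1 NX.subtype x) s * ψ s =
      (cc F x (N.subtype s) - F'.ph (ind1 NX.subtype x) s) * ψ s := fun s => by ring
  rw [Finset.sum_congr rfl (fun s _ => h3 s)]
  by_contra hcon
  have hcfa : CF (fun s : N => cc F x (N.subtype s) - F'.ph (ind1 NX.subtype x) s) := by
    intro g s
    have e1 : cc F x (N.subtype (g * s * g⁻¹)) = cc F x (N.subtype s) := by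
      rw [map_mul, map_mul, map_inv]; exact cc_cf F hF1 x _ _
    have e2 : F'.ph (ind1 NX.subtype x) (g * s * g⁻¹) = F'.ph (ind1 NX.subtype x) s :=
      (hF1 ℓ NX N F').2.2.2.2.1 _ (ind1_cf NX.subtype x) g s
    simp only [e1, e2]
  have hia : ∀ s : N, IsIntegral ℤ (cc F x (N.subtype s) - F'.ph (ind1 NX.subtype x) s) :=
    fun s => (cc_integral F hF0 x _).sub (ph_integral F' hF0 _ (fun y => ind1_integral _ _ y) s)
  obtain ⟨s, hs1, hs2⟩ := hL2 𝔪 N ψ hψC.1.cf hψC.2.2.2 _ hcfa hia hcon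
  -- `s` centralises `D`
  obtain ⟨g, hg⟩ := hdef.2.2 s hs2
  have hDs : D ≤ Subgroup.centralizer {(s : T)} := by
    intro d hd
    -- d = g d' g⁻¹
    have hg2 : (g : T)⁻¹ ∈ Subgroup.normalizer (D : Set T) := by
      rw [← hN]; exact N.inv_mem g.2
    have hd' : (g : T)⁻¹ * d * (g : T) ∈ D := by
      have := (Subgroup.mem_normalizer_iff.1 hg2) d
      rw [inv_inv] at this
      exact this.1 hd
    have hd'' : (g : T)⁻¹ * d * (g : T) ∈ N := (le_of_eq hN.symm) (Subgroup.le_normalizer hd')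
    have h4 := hg ⟨_, hd''⟩ (Subgroup.mem_subgroupOf.2 hd')
    rw [Subgroup.mem_centralizer_singleton_iff] at h4 ⊢
    have h5 := congrArg (Subtype.val) h4
    simp only [Subgroup.coe_mul, InvMemClass.coe_inv] at h5
    have h6 : (g : T) * ((g : T)⁻¹ * d * (g : T)) * (g : T)⁻¹ = d := by group
    rwa [h6] at h5
  apply hs1
  rw [cong_sub]
  have h7 := hB1 ℓ 𝔪 h𝔪 hℓ X T F D hD x (s : T) hDs
  have h8 : F'.ph (ind1 NX.subtype x) s =
      ∑ v : X, if (∀ q ∈ D, F.io q * v * (F.io q)⁻¹ = v) ∧ IsConj x (v * F.io s)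
        then F.lam v else 0 := by
    have e1 : ∀ v : X, (if (∀ q ∈ D, F.io q * v * (F.io q)⁻¹ = v) ∧ IsConj x (v * F.io s)
        then F.lam v else 0) = if v ∈ NX then (if IsConj x (v * F.io s) then F.lam v else 0)
          else 0 := by
      intro v
      by_cases hv : v ∈ F.V
      · have hfx := fix_iff F D hv
        rw [← hNX] at hfx
        by_cases h1 : v ∈ NX
        · have h1' := hfx.2 h1
          rw [if_pos h1]
          by_cases h2 : IsConj x (v * F.io s)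
          · rw [if_pos ⟨h1', h2⟩, if_pos h2]
          · rw [if_neg (fun h => h2 h.2), if_neg h2]
        · rw [if_neg h1, if_neg (fun h => h1 (hfx.1 h.1))]
      · simp [F.lam_off v hv]
    rw [Finset.sum_congr rfl (fun v _ => e1 v)]
    unfold Fr.ph
    rw [← Finset.sum_filter]
    symm
    refine Finset.sum_bij' (fun y hy => (⟨y, (Finset.mem_filter.1 hy).2⟩ : NX)) (fun y _ => (y : X))
      ?_ ?_ ?_ ?_ ?_
    · intro y _
      exact Finset.mem_univ _
    · intro y _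
      simp
    · intro y _; rfl
    · intro y _; rfl
    · intro y hy
      unfold ind1
      have e3 : NX.subtype ((⟨y, (Finset.mem_filter.1 hy).2⟩ : NX) * F'.io s) = y * F.io s := by
        simp [hio s]
      rw [e3, hlam ⟨y, (Finset.mem_filter.1 hy).2⟩]
      split_ifs <;> simp
  rw [h8]
  exact h7

end H88

theorem b6 (hL0 : T_L0) (hL1 : T_L1) (hL2 : T_L2) (hC1 : T_C1) (hF0 : T_F0) (hF1 : T_F1)
    (hB1 : T_B1) : T_B6 := by
  intro ℓ _ 𝔪 h𝔪 hℓ X T _ _ _ _ F D F' hloc hD χ ψ hχ hψ hdef hcorr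
  exact b6_aux F hL0 hL1 hL2 hC1 hF0 hF1 hB1 h𝔪 hℓ D _ _ rfl rfl F' hloc.lam hloc.io hD χ ψ hχ hψ
    hdef hcorr

end AMx
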