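import Pool.Agent.H4.AM.Targets

/-! Common lemmas for the modules B2, B3, B6 of the Alperin–McKay reduction (MP_657073_al) -/

open scoped Classical

set_option linter.unusedSectionVars false

namespace AMx.H88

/-- indicator of a conjugacy class of `G`, pulled back along `j` -/
noncomputable def ind1 {N G : Type} [Group N] [Group G] (j : N →* G) (x : G) : N → ℂ :=
  fun y => if IsConj x (j y) then 1 else 0

theorem isConj_conj {G : Type} [Group G] (x g y : G) : IsConj x (g * y * g⁻¹) ↔ IsConj x y := by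
  have h : IsConj y (g * y * g⁻¹) := isConj_iff.2 ⟨g, rfl⟩
  exact ⟨fun h1 => h1.trans h.symm, fun h1 => h1.trans h⟩

theorem ind1_cf {N G : Type} [Group N] [Group G] (j : N →* G) (x : G) : CF (ind1 j x) := by
  intro g y
  unfold ind1
  have : IsConj x (j (g * y * g⁻¹)) ↔ IsConj x (j y) := by
    rw [map_mul, map_mul, map_inv]; exact isConj_conj x (j g) (j y)
  simp only [this]

theorem ind1_integral {N G : Type} [Group N] [Group G] (j : N →* G) (x : G) (y : N) :
    IsIntegral ℤ (ind1 j x y) := by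
  unfold ind1
  split_ifs
  · exact isIntegral_one
  · exact isIntegral_zero

theorem cen_eq {N G : Type} [Group N] [Fintype N] [Group G] (j : N →* G) (ψ : N → ℂ) (x : G) :
    cen j ψ x = (∑ y, ind1 j x y * ψ y) / ψ 1 := by
  unfold cen ind1
  congr 1
  refine Finset.sum_congr rfl fun y _ => ?_
  split_ifs <;> simp

section Fr

variable {ℓ : ℕ} {X T : Type} [Group X] [Group T] [Fintype X] [Fintype T] (F : Fr ℓ X T)

theorem ix_ne (hF0 : T_F0) : (F.ix : ℂ) ≠ 0 := by
  have := (hF0 ℓ X T F).2.1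
  exact_mod_cast this.ne'

theorem cc_eq (x : X) : cc F x = F.ph (ind1 (MonoidHom.id X) x) := by
  funext t
  unfold cc
  congr 1
  funext y
  unfold ind1
  by_cases h : IsConj x y <;> simp [h]

theorem sum_ind (hF0 : T_F0) (hF1 : T_F1) (ψ : T → ℂ) (a : X → ℂ) (ha : CF a) :
    (∑ x, a x * F.ind ψ x) / F.ind ψ 1 = (∑ t, F.ph a t * ψ t) / ψ 1 := by
  obtain ⟨-, h2, h3, -⟩ := hF1 ℓ X T F
  rw [h2, h3 ψ a ha]
  exact mul_div_mul_left _ _ (ix_ne F hF0)

theorem cen_ind (hF0 : T_F0) (hF1 : T_F1) (ψ : T → ℂ) (x : X) :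
    cen (MonoidHom.id X) (F.ind ψ) x = (∑ t, cc F x t * ψ t) / ψ 1 := by
  rw [cen_eq, sum_ind F hF0 hF1 ψ _ (ind1_cf _ _), cc_eq]

theorem lam_integral (hF0 : T_F0) (x : X) : IsIntegral ℤ (F.lam x) := by
  by_cases hx : x ∈ F.V
  · exact ((hF0 ℓ X T F).2.2.1 x hx).1
  · rw [F.lam_off x hx]; exact isIntegral_zero

theorem ph_integral (hF0 : T_F0) (a : X → ℂ) (ha : ∀ x, IsIntegral ℤ (a x)) (t : T) :
    IsIntegral ℤ (F.ph a t) := by
  unfold Fr.ph
  exact IsIntegral.sum _ fun x _ => (ha _).mul (lam_integral F hF0 x)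

theorem cc_cf (hF1 : T_F1) (x : X) : CF (cc F x) := by
  rw [cc_eq]
  exact (hF1 ℓ X T F).2.2.2.2.1 _ (ind1_cf (MonoidHom.id X) x)

theorem cc_integral (hF0 : T_F0) (x : X) (t : T) : IsIntegral ℤ (cc F x t) := by
  rw [cc_eq]
  exact ph_integral F hF0 _ (fun y => ind1_integral _ _ y) t

end Fr

theorem isIntegral_nat (n : ℕ) : IsIntegral ℤ (n : ℂ) := by
  have := isIntegral_algebraMap (R := ℤ) (A := ℂ) (x := (n : ℤ))
  simpa using this

theorem cong_sub {𝔪 : Ideal (integralClosure ℤ ℂ)} {a b : ℂ} :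
    Cong 𝔪 (a - b) 0 ↔ Cong 𝔪 a b := by
  unfold Cong
  simp only [sub_zero]

end AMx.H88
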